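import Mathlib

namespace Pool.Agent.Results.MP_d45172_nt.Description

/-- `(w, x, y, z)` is a solution of Mordell's equation `1/w + 1/x + 1/y + 1/z + 1/(wxyz) = 0`
in nonzero integers. -/
def IsSolution (w x y z : ℤ) : Prop :=
  w ≠ 0 ∧ x ≠ 0 ∧ y ≠ 0 ∧ z ≠ 0 ∧
    (1 / (w : ℚ) + 1 / (x : ℚ) + 1 / (y : ℚ) + 1 / (z : ℚ) + 1 / ((w : ℚ) * x * y * z) = 0)

/-- No two of the four integers are opposite. -/
def NoOpposite (w x y z : ℤ) : Prop :=
  w + x ≠ 0 ∧ w + y ≠ 0 ∧ w + z ≠ 0 ∧ x + y ≠ 0 ∧ x + z ≠ 0 ∧ y + z ≠ 0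

theorem isSolution_iff (w x y z : ℤ) :
    IsSolution w x y z ↔ w ≠ 0 ∧ x ≠ 0 ∧ y ≠ 0 ∧ z ≠ 0 ∧
      x * y * z + w * y * z + w * x * z + w * x * y + 1 = 0 := by
  unfold IsSolution
  constructor
  · rintro ⟨hw, hx, hy, hz, h⟩
    refine ⟨hw, hx, hy, hz, ?_⟩
    have hw' : (w : ℚ) ≠ 0 := by exact_mod_cast hw
    have hx' : (x : ℚ) ≠ 0 := by exact_mod_cast hx
    have hy' : (y : ℚ) ≠ 0 := by exact_mod_cast hy
    have hz' : (z : ℚ) ≠ 0 := by exact_mod_cast hz
    field_simp at h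
    have h2 : (x : ℚ) * y * z + w * y * z + w * x * z + w * x * y + 1 = 0 := by linarith
    exact_mod_cast h2
  · rintro ⟨hw, hx, hy, hz, h⟩
    refine ⟨hw, hx, hy, hz, ?_⟩
    have hw' : (w : ℚ) ≠ 0 := by exact_mod_cast hw
    have hx' : (x : ℚ) ≠ 0 := by exact_mod_cast hx
    have hy' : (y : ℚ) ≠ 0 := by exact_mod_cast hy
    have hz' : (z : ℚ) ≠ 0 := by exact_mod_cast hz
    have h2 : (x : ℚ) * y * z + w * y * z + w * x * z + w * x * y + 1 = 0 := by exact_mod_cast h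
    field_simp
    linarith

/-- The key inequalities. -/
theorem key {w x y z : ℤ} (hw : w ≠ 0) (hx : x ≠ 0) (hy : y ≠ 0) (hz : z ≠ 0)
    (h : x * y * z + w * y * z + w * x * z + w * x * y + 1 = 0)
    (hn : NoOpposite w x y z) (h1 : |w| ≤ |x|) (h2 : |x| ≤ |y|) (h3 : |y| ≤ |z|) :
    w * x < 0 ∧ |w| < |x| ∧ |x| ≤ 3 * |w| ∧
      |w + x| = |x| - |w| ∧ 1 ≤ |w * x + w * y + x * y| ∧
      |z| * |w * x + w * y + x * y| = |1 + w * x * y| ∧
      |w + x| * |y| ≤ |w * x + w * y + x * y| + |w| * |x| := by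
  obtain ⟨n1, n2, n3, n4, n5, n6⟩ := hn
  have hwpos : 1 ≤ |w| := Int.one_le_abs hw
  -- `|y| ≥ 2`
  have hy2 : 2 ≤ |y| := by
    by_contra hlt
    have hy1 : |y| = 1 := by have := Int.one_le_abs hy; omega
    have hx1 : |x| = 1 := by have := Int.one_le_abs hx; omega
    have hw1 : |w| = 1 := by omega
    rcases (abs_eq (by norm_num : (0:ℤ) ≤ 1)).1 hy1 with rfl | rfl <;>
    rcases (abs_eq (by norm_num : (0:ℤ) ≤ 1)).1 hx1 with rfl | rfl <;>
    rcases (abs_eq (by norm_num : (0:ℤ) ≤ 1)).1 hw1 with rfl | rfl <;>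
    simp at n1 n2 n4 h <;> omega
  have hzD : z * (w * x + w * y + x * y) = -(1 + w * x * y) := by linarith
  have hzD' : |z| * |w * x + w * y + x * y| = |1 + w * x * y| := by
    rw [← abs_mul, hzD, abs_neg]
  have hD0 : w * x + w * y + x * y ≠ 0 := by
    intro h0
    rw [h0, mul_zero] at hzD
    have : w * x * y = -1 := by linarith
    have hy' : IsUnit y := by
      refine IsUnit.of_mul_eq_one (-(w * x)) ?_
      linarith
    have := Int.isUnit_iff_abs_eq.1 hy'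
    omega
  have hD1 : 1 ≤ |w * x + w * y + x * y| := Int.one_le_abs hD0
  have hwxy : |1 + w * x * y| ≤ 1 + |w| * |x| * |y| := by
    calc |1 + w * x * y| ≤ |1| + |w * x * y| := abs_add_le _ _
      _ = 1 + |w| * |x| * |y| := by rw [abs_mul, abs_mul, abs_one]
  have hDle : |w * x + w * y + x * y| ≤ |w| * |x| := by
    by_contra hlt
    push Not at hlt
    have e1 : |w| * |x| + 1 ≤ |w * x + w * y + x * y| := hlt
    have e2 : |y| * |w * x + w * y + x * y| ≤ |z| * |w * x + w * y + x * y| :=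
      mul_le_mul_of_nonneg_right h3 (abs_nonneg _)
    have e3 : |y| * (|w| * |x| + 1) ≤ |y| * |w * x + w * y + x * y| :=
      mul_le_mul_of_nonneg_left e1 (abs_nonneg _)
    nlinarith
  have hsy : |w + x| * |y| ≤ |w * x + w * y + x * y| + |w| * |x| := by
    have : (w + x) * y = (w * x + w * y + x * y) - w * x := by ring
    rw [← abs_mul, this]
    calc |(w * x + w * y + x * y) - w * x| ≤ |w * x + w * y + x * y| + |w * x| := abs_sub _ _
      _ = _ := by rw [abs_mul w x]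
  have hsy2 : |w + x| * |y| ≤ 2 * (|w| * |x|) := by linarith
  have hxpos : 1 ≤ |x| := Int.one_le_abs hx
  have hsx : |w + x| * |x| ≤ 2 * (|w| * |x|) :=
    le_trans (mul_le_mul_of_nonneg_left h2 (abs_nonneg _)) hsy2
  have hs2 : |w + x| ≤ 2 * |w| := by
    by_contra hlt
    push Not at hlt
    nlinarith
  -- opposite signs
  have hneg : w * x < 0 := by
    rcases lt_trichotomy (w * x) 0 with hlt | heq | hgt
    · exact hlt
    · exact absurd heq (mul_ne_zero hw hx)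
    · exfalso
      have hsum : |w + x| = |w| + |x| := by
        rcases pos_and_pos_or_neg_and_neg_of_mul_pos hgt with ⟨a, b⟩ | ⟨a, b⟩
        · rw [abs_of_pos a, abs_of_pos b, abs_of_pos (add_pos a b)]
        · rw [abs_of_neg a, abs_of_neg b, abs_of_neg (add_neg a b)]; ring
      have hxw : |x| = |w| := by omega
      have hyw : |y| ≤ |w| := by
        rw [hsum, hxw] at hsy2
        by_contra hlt
        push Not at hlt
        nlinarith
      have hyw' : |y| = |w| := by omega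
      have hxw' : x = w := by
        rcases abs_eq_abs.1 hxw with h' | h'
        · exact h'
        · exact absurd (by rw [h']; ring) n1
      have hyw'' : y = w := by
        rcases abs_eq_abs.1 hyw' with h' | h'
        · exact h'
        · exact absurd (by rw [h']; ring) n2
      rw [hxw', hyw''] at h
      have hu : IsUnit w := by
        refine IsUnit.of_mul_eq_one (-(3 * w * z + w * w)) ?_
        linarith
      have := Int.isUnit_iff_abs_eq.1 hu
      omega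
  have hlt : |w| < |x| := by
    rcases h1.lt_or_eq with h' | h'
    · exact h'
    · exfalso
      rcases abs_eq_abs.1 h' with h'' | h''
      · rw [h''] at hneg; nlinarith [mul_self_nonneg x]
      · exact n1 (by rw [h'']; ring)
  have hs : |w + x| = |x| - |w| := by
    rcases mul_neg_iff.1 hneg with ⟨a, b⟩ | ⟨a, b⟩
    · rw [abs_of_pos a, abs_of_neg b] at *
      rw [abs_of_neg (by linarith)]; ring
    · rw [abs_of_neg a, abs_of_pos b] at *
      rw [abs_of_pos (by linarith)]; ring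
  refine ⟨hneg, hlt, by omega, hs, hD1, hzD', hsy⟩


/-- The solutions with two opposite unknowns. -/
theorem opposite_case (w x y z : ℤ) (hwx : w + x = 0) :
    IsSolution w x y z ↔ (w = 1 ∨ w = -1) ∧ y + z = 1 ∧ y ≠ 0 ∧ z ≠ 0 := by
  have hx : x = -w := by linarith
  subst hx
  rw [isSolution_iff]
  constructor
  · rintro ⟨hw, -, hy, hz, h⟩
    have h' : w * w * (y + z) = 1 := by linarith
    have hu : IsUnit w := IsUnit.of_mul_eq_one (w * (y + z)) (by linarith)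
    have hw1 : w = 1 ∨ w = -1 := Int.isUnit_iff.1 hu
    refine ⟨hw1, ?_, hy, hz⟩
    rcases hw1 with rfl | rfl <;> linarith
  · rintro ⟨hw, hyz, hy, hz⟩
    rcases hw with rfl | rfl
    · refine ⟨by norm_num, by norm_num, hy, hz, ?_⟩
      linarith
    · refine ⟨by norm_num, by norm_num, hy, hz, ?_⟩
      linarith

/-- The divisor description of the solutions in which `w` and `x` are not opposite. -/
theorem divisor_case (w x y z : ℤ) (hs : w + x ≠ 0) :
    IsSolution w x y z ↔ w ≠ 0 ∧ x ≠ 0 ∧ y ≠ 0 ∧ z ≠ 0 ∧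
      ∃ d e : ℤ, d * e = w ^ 2 * x ^ 2 - w - x ∧
        (w + x) * y = d - w * x ∧ (w + x) * z = e - w * x := by
  rw [isSolution_iff]
  constructor
  · rintro ⟨hw, hx, hy, hz, h⟩
    refine ⟨hw, hx, hy, hz, w * x + (w + x) * y, w * x + (w + x) * z, ?_, by ring, by ring⟩
    linear_combination (w + x) * h
  · rintro ⟨hw, hx, hy, hz, d, e, hde, hd, he⟩
    refine ⟨hw, hx, hy, hz, ?_⟩
    have hd' : d = w * x + (w + x) * y := by linarith
    have he' : e = w * x + (w + x) * z := by linarith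
    have h0 : (w + x) * (x * y * z + w * y * z + w * x * z + w * x * y + 1) = 0 := by
      rw [hd', he'] at hde
      linear_combination hde
    exact (mul_eq_zero.1 h0).resolve_left hs

/-- The polynomial inequality behind the sharp bound. -/
theorem poly_ineq {a t δ Z q : ℤ} (ha : 1 ≤ a) (ht : 1 ≤ t) (ht2 : t ≤ 2 * a) (hδ : 1 ≤ δ)
    (hq : q = a * (a + t)) (hZ : Z * (t * δ) ≤ t + q * (δ + q)) :
    Z ≤ (a ^ 2 + a) ^ 2 + (a ^ 2 + a) + 1 := by
  have h1 : q + q ^ 2 ≤ t * ((a ^ 2 + a) ^ 2 + (a ^ 2 + a)) := by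
    have e : t * ((a ^ 2 + a) ^ 2 + (a ^ 2 + a)) - (q + q ^ 2)
        = a ^ 2 * (t - 1) * (a ^ 2 + 1 - t) := by rw [hq]; ring
    have : 0 ≤ a ^ 2 * (t - 1) * (a ^ 2 + 1 - t) := by
      apply mul_nonneg (mul_nonneg (by positivity) (by linarith))
      nlinarith [mul_self_nonneg (a - 1)]
    linarith
  have hqpos : 0 ≤ q := by rw [hq]; positivity
  have h2 : t + q * (δ + q) ≤ δ * (t + q + q ^ 2) := by
    nlinarith [mul_nonneg (by linarith : (0:ℤ) ≤ δ - 1) (by positivity : 0 ≤ q ^ 2),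
      mul_nonneg (by linarith : (0:ℤ) ≤ δ - 1) (by linarith : 0 ≤ t)]
  have h3 : Z * (t * δ) ≤ ((a ^ 2 + a) ^ 2 + (a ^ 2 + a) + 1) * (t * δ) := by
    have : δ * (t + q + q ^ 2) ≤ δ * (t * ((a ^ 2 + a) ^ 2 + (a ^ 2 + a) + 1)) := by
      apply mul_le_mul_of_nonneg_left _ (by linarith)
      linarith
    linarith
  exact le_of_mul_le_mul_right h3 (by positivity)

theorem eq_case {a t δ : ℤ} (ha : 1 ≤ a) (ht1 : 1 ≤ t) (ht2 : t ≤ 2 * a) (hδ : 1 ≤ δ)
    (hmain : ((a ^ 2 + a) ^ 2 + (a ^ 2 + a) + 1) * (t * δ)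
      ≤ t + a * (a + t) * (δ + a * (a + t))) :
    δ = 1 ∧ (t = 1 ∨ (a = 1 ∧ t = 2)) := by
  have key1 : t * ((a ^ 2 + a) ^ 2 + (a ^ 2 + a)) - (a * (a + t) + (a * (a + t)) ^ 2)
        = a ^ 2 * (t - 1) * (a ^ 2 + 1 - t) := by ring
  have hge : 0 ≤ a ^ 2 + 1 - t := by nlinarith [mul_self_nonneg (a - 1)]
  have hnn : 0 ≤ a ^ 2 * (t - 1) * (a ^ 2 + 1 - t) :=
    mul_nonneg (mul_nonneg (by positivity) (by linarith)) hge
  obtain ⟨q, hq⟩ : ∃ q, q = a * (a + t) := ⟨_, rfl⟩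
  obtain ⟨K, hK⟩ : ∃ K, K = (a ^ 2 + a) ^ 2 + (a ^ 2 + a) := ⟨_, rfl⟩
  rw [← hq, ← hK] at key1 hmain
  have hqpos : 0 < q := by rw [hq]; positivity
  have hKq : q + q ^ 2 ≤ t * K := by linarith
  have hδK : δ * (q + q ^ 2) ≤ δ * (t * K) := mul_le_mul_of_nonneg_left hKq (by linarith)
  have hδ1 : δ = 1 := by
    have h1 : (δ - 1) * (t + q ^ 2) ≤ 0 := by linarith
    have hpos : 0 < t + q ^ 2 := by positivity
    have : δ - 1 ≤ 0 := by
      by_contra hlt
      push Not at hlt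
      have := mul_pos hlt hpos
      linarith
    linarith
  refine ⟨hδ1, ?_⟩
  rw [hδ1] at hmain
  have hle : a ^ 2 * (t - 1) * (a ^ 2 + 1 - t) ≤ 0 := by linarith
  have hzero : a ^ 2 * (t - 1) * (a ^ 2 + 1 - t) = 0 := le_antisymm hle hnn
  rcases mul_eq_zero.1 hzero with h' | h'
  · rcases mul_eq_zero.1 h' with h'' | h''
    · exfalso; have : 0 < a ^ 2 := by positivity
      omega
    · left; linarith
  · right
    have ha1 : a = 1 := by nlinarith
    subst ha1
    exact ⟨rfl, by linarith⟩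

theorem bound {w x y z : ℤ} (h : IsSolution w x y z) (hn : NoOpposite w x y z)
    (h1 : |w| ≤ |x|) (h2 : |x| ≤ |y|) (h3 : |y| ≤ |z|) :
    |z| ≤ (w ^ 2 + |w|) ^ 2 + (w ^ 2 + |w|) + 1 ∧
    (|z| = (w ^ 2 + |w|) ^ 2 + (w ^ 2 + |w|) + 1 →
      0 < w ∧ x = -(w + 1) ∧ y = -(w ^ 2 + w + 1) ∧
        z = -((w ^ 2 + w) ^ 2 + (w ^ 2 + w) + 1)) := by
  rw [isSolution_iff] at h
  obtain ⟨hw, hx, hy, hz, h⟩ := h
  obtain ⟨a1, a2, a3, a4, a5, a6, a7⟩ := key hw hx hy hz h hn h1 h2 h3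
  have hwpos : 1 ≤ |w| := Int.one_le_abs hw
  have hsq : w ^ 2 = |w| ^ 2 := (sq_abs w).symm
  rw [a4] at a7
  have hwxy : |1 + w * x * y| ≤ 1 + |w| * |x| * |y| := by
    calc |1 + w * x * y| ≤ |1| + |w * x * y| := abs_add_le _ _
      _ = 1 + |w| * |x| * |y| := by rw [abs_mul, abs_mul, abs_one]
  set δ := |w * x + w * y + x * y| with hδ
  have hq0 : 0 ≤ |w| * |x| := by positivity
  have hmain : |z| * ((|x| - |w|) * δ) ≤ (|x| - |w|) + |w| * |x| * (δ + |w| * |x|) := by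
    have e1 : |z| * ((|x| - |w|) * δ) = (|x| - |w|) * (|z| * δ) := by ring
    rw [e1, a6]
    have e2 : (|x| - |w|) * |1 + w * x * y| ≤ (|x| - |w|) * (1 + |w| * |x| * |y|) :=
      mul_le_mul_of_nonneg_left hwxy (by linarith)
    have e3 : |w| * |x| * ((|x| - |w|) * |y|) ≤ |w| * |x| * (δ + |w| * |x|) :=
      mul_le_mul_of_nonneg_left a7 hq0
    nlinarith
  have hB : |z| ≤ (|w| ^ 2 + |w|) ^ 2 + (|w| ^ 2 + |w|) + 1 :=
    poly_ineq (a := |w|) (t := |x| - |w|) (δ := δ) (q := |w| * |x|) hwpos (by linarith)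
      (by linarith) a5 (by ring) hmain
  refine ⟨by rw [hsq]; exact hB, ?_⟩
  intro hEq
  rw [hsq] at hEq
  -- equality analysis
  obtain ⟨a, ha⟩ : ∃ a, a = |w| := ⟨_, rfl⟩
  obtain ⟨t, ht⟩ : ∃ t, t = |x| - |w| := ⟨_, rfl⟩
  have hxat : |x| = a + t := by rw [ha, ht]; ring
  rw [← ha] at hwpos hEq hmain a3 a7
  rw [hxat] at hmain a3 a7
  rw [hEq] at hmain
  have e0 : a + t - a = t := by ring
  rw [e0] at hmain a7
  have ht1 : 1 ≤ t := by omega
  have ht2 : t ≤ 2 * a := by linarith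
  obtain ⟨hδ1, hcase⟩ := eq_case hwpos ht1 ht2 a5 hmain
  rw [hδ1] at a7
  have ht' : t = 1 := by
    rcases hcase with h' | ⟨ha1, ht2'⟩
    · exact h'
    · exfalso
      subst ha1
      subst ht2'
      omega
  subst ht'
  -- now `|x| = a + 1`
  have hy1 : |y| ≤ a ^ 2 + a + 1 := by nlinarith
  have hwx : w * x = -(a ^ 2 + a) := by
    have : |w * x| = a ^ 2 + a := by rw [abs_mul, ← ha, hxat]; ring
    rw [abs_of_neg a1] at this
    linarith
  have hzabs : |1 + w * x * y| = (a ^ 2 + a) ^ 2 + (a ^ 2 + a) + 1 := by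
    rw [← a6, hEq, hδ1, mul_one]
  have hNpos : 0 < a ^ 2 + a := by positivity
  have hprod : |w * x * y| ≤ (a ^ 2 + a) * (a ^ 2 + a + 1) := by
    rw [abs_mul, hwx, abs_neg, abs_of_pos hNpos]
    exact mul_le_mul_of_nonneg_left hy1 hNpos.le
  have hwxy1 : w * x * y = (a ^ 2 + a) * (a ^ 2 + a + 1) := by
    rcases abs_cases (1 + w * x * y) with ⟨h', -⟩ | ⟨h', -⟩
    · rw [h'] at hzabs; linarith
    · rw [h'] at hzabs
      exfalso
      have := neg_abs_le (w * x * y)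
      nlinarith
  have hyv : y = -(a ^ 2 + a + 1) := by
    rw [hwx] at hwxy1
    have : (a ^ 2 + a) * (y + (a ^ 2 + a + 1)) = 0 := by linarith
    rcases mul_eq_zero.1 this with h' | h'
    · omega
    · linarith
  have hs1 : w + x = -1 := by
    have habs : |w + x| = 1 := by rw [a4, hxat, ← ha]; ring
    rcases (abs_eq (by norm_num : (0:ℤ) ≤ 1)).1 habs with h' | h'
    · exfalso
      have : w * x + w * y + x * y = -(a ^ 2 + a) - (a ^ 2 + a + 1) := by
        have : w * x + w * y + x * y = w * x + (w + x) * y := by ring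
        rw [this, hwx, h', hyv]; ring
      rw [this] at hδ
      rw [abs_of_neg (by linarith)] at hδ
      omega
    · exact h'
  have hw0 : 0 < w := by
    rcases lt_trichotomy w 0 with h' | h' | h'
    · exfalso
      have hx0 : 0 < x := by
        by_contra hx0
        push Not at hx0
        nlinarith
      rw [abs_of_neg h'] at ha
      rw [abs_of_pos hx0] at hxat
      omega
    · exact absurd h' hw
    · exact h'
  have haw : a = w := by rw [ha, abs_of_pos hw0]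
  refine ⟨hw0, by linarith, by rw [hyv, haw], ?_⟩
  have hD : w * x + w * y + x * y = 1 := by
    have : w * x + w * y + x * y = w * x + (w + x) * y := by ring
    rw [this, hwx, hs1, hyv]; ring
  have hz' : z * (w * x + w * y + x * y) = -(1 + w * x * y) := by linarith
  rw [hD, mul_one, hwxy1, haw] at hz'
  rw [hz']; ring

theorem bound' {w x y z : ℤ} (h : IsSolution w x y z) (hn : NoOpposite w x y z)
    (h1 : |w| ≤ |x|) (h2 : |x| ≤ |y|) (h3 : |y| ≤ |z|) :
    w * x < 0 ∧ |w| < |x| ∧ |x| ≤ 3 * |w| := by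
  rw [isSolution_iff] at h
  obtain ⟨hw, hx, hy, hz, h⟩ := h
  obtain ⟨a1, a2, a3, -⟩ := key hw hx hy hz h hn h1 h2 h3
  exact ⟨a1, a2, a3⟩

/-- **Main theorem.** A complete description of the solutions of Mordell's equation
`1/w + 1/x + 1/y + 1/z + 1/(wxyz) = 0`.
(1) The solutions with `w + x = 0` are `(±1, ∓1, y, 1 - y)`, `y ∉ {0, 1}`.
(2) The solutions with `w + x ≠ 0` are the quadruples
`(w, x, (d - wx)/(w + x), (e - wx)/(w + x))`, where `de = w²x² - w - x`.
(3) A solution without two opposite entries, sorted by absolute value, satisfies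
`wx < 0`, `|w| < |x| ≤ 3|w|` and `|z| ≤ (w² + |w|)² + (w² + |w|) + 1`, with equality exactly for
`(w, -(w+1), -(w²+w+1), -((w²+w)²+(w²+w)+1))`, `w > 0`. In particular, for each `m` there are only
finitely many such solutions with `min = m`, all found by factoring the finitely many integers
`w²x² - w - x` with `|w| = m`, `wx < 0`, `m < |x| ≤ 3m`. -/
theorem result :
    (∀ w x y z : ℤ, w + x = 0 →
      (IsSolution w x y z ↔ (w = 1 ∨ w = -1) ∧ y + z = 1 ∧ y ≠ 0 ∧ z ≠ 0)) ∧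
    (∀ w x y z : ℤ, w + x ≠ 0 →
      (IsSolution w x y z ↔ w ≠ 0 ∧ x ≠ 0 ∧ y ≠ 0 ∧ z ≠ 0 ∧
        ∃ d e : ℤ, d * e = w ^ 2 * x ^ 2 - w - x ∧
          (w + x) * y = d - w * x ∧ (w + x) * z = e - w * x)) ∧
    (∀ w x y z : ℤ, IsSolution w x y z → NoOpposite w x y z →
      |w| ≤ |x| → |x| ≤ |y| → |y| ≤ |z| →
        w * x < 0 ∧ |w| < |x| ∧ |x| ≤ 3 * |w| ∧
        |z| ≤ (w ^ 2 + |w|) ^ 2 + (w ^ 2 + |w|) + 1 ∧
        (|z| = (w ^ 2 + |w|) ^ 2 + (w ^ 2 + |w|) + 1 ↔
          0 < w ∧ x = -(w + 1) ∧ y = -(w ^ 2 + w + 1) ∧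
            z = -((w ^ 2 + w) ^ 2 + (w ^ 2 + w) + 1))) := by
  refine ⟨fun w x y z h => opposite_case w x y z h, fun w x y z h => divisor_case w x y z h, ?_⟩
  intro w x y z h hn h1 h2 h3
  obtain ⟨b1, b2⟩ := bound h hn h1 h2 h3
  obtain ⟨c1, c2, c3⟩ := bound' h hn h1 h2 h3
  refine ⟨c1, c2, c3, b1, b2, ?_⟩
  rintro ⟨hw, -, -, rfl⟩
  rw [abs_neg, abs_of_pos hw, abs_of_pos (by positivity)]

end Pool.Agent.Results.MP_d45172_nt.Description
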