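import Mathlib
import Pool.Agent.MertensAP.Main

/-!
MP_d45172_nt: Mordell's equation `1/w + 1/x + 1/y + 1/z + 1/(wxyz) = 0`. The number of solutions
(without opposite entries) whose smallest entry in absolute value is a given `w` is, for infinitely
many `w`, at least `exp (c log w / loglog w)`.
-/

namespace Pool.Agent.Results.MP_d45172_nt.ManyCompletions

/-- `(w, x, y, z)` is a solution of Mordell's equation `1/w + 1/x + 1/y + 1/z + 1/(wxyz) = 0`
in nonzero integers. -/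
def IsSolution (w x y z : ℤ) : Prop :=
  w ≠ 0 ∧ x ≠ 0 ∧ y ≠ 0 ∧ z ≠ 0 ∧
    (1 / (w : ℚ) + 1 / (x : ℚ) + 1 / (y : ℚ) + 1 / (z : ℚ) + 1 / ((w : ℚ) * x * y * z) = 0)

/-- No two of the four integers are opposite. -/
def NoOpposite (w x y z : ℤ) : Prop :=
  w + x ≠ 0 ∧ w + y ≠ 0 ∧ w + z ≠ 0 ∧ x + y ≠ 0 ∧ x + z ≠ 0 ∧ y + z ≠ 0

theorem isSolution_of {w x y z : ℤ} (hw : w ≠ 0) (hx : x ≠ 0) (hy : y ≠ 0) (hz : z ≠ 0)
    (h : x * y * z + w * y * z + w * x * z + w * x * y + 1 = 0) : IsSolution w x y z := by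
  refine ⟨hw, hx, hy, hz, ?_⟩
  have hw' : (w : ℚ) ≠ 0 := by exact_mod_cast hw
  have hx' : (x : ℚ) ≠ 0 := by exact_mod_cast hx
  have hy' : (y : ℚ) ≠ 0 := by exact_mod_cast hy
  have hz' : (z : ℚ) ≠ 0 := by exact_mod_cast hz
  have h2 : (x : ℚ) * y * z + w * y * z + w * x * z + w * x * y + 1 = 0 := by exact_mod_cast h
  field_simp
  linarith

/-- `r` primes `≡ 1 mod 4` below a fixed power of `r`. -/
theorem exists_primes : ∃ C' : ℕ, ∀ r : ℕ, 2 ≤ r → ∃ s : Finset ℕ, s.card = r ∧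
    ∀ p ∈ s, p.Prime ∧ p ≡ 1 [MOD 4] ∧ p ≤ r ^ C' := by
  classical
  obtain ⟨C, hC0, hC⟩ := Pool.Agent.MertensAP.mertens_ap_mod 4 (by norm_num)
  have hC := hC 1 (by norm_num)
  have htot : ((Nat.totient 4 : ℕ) : ℝ) = 2 := by
    have : Nat.totient 4 = 2 := by decide
    rw [this]; norm_num
  rw [htot] at hC
  set n0 := ⌈4 * C + 2⌉₊ with hn0
  have ha : 4 * C + 2 ≤ (n0 : ℝ) := Nat.le_ceil _
  refine ⟨2 * n0 + (n0 + 6), ?_⟩
  intro r hr
  have hrR : (2 : ℝ) ≤ r := by exact_mod_cast hr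
  set y : ℝ := (r : ℝ) ^ (n0 + 6) with hy
  have hy1 : 1 ≤ y := one_le_pow₀ (by linarith)
  set K : ℝ := Real.exp (4 * C + 2) with hK
  have hK1 : 1 ≤ K := Real.one_le_exp (by linarith)
  have hKy : y ≤ K * y := by nlinarith
  set T := (Finset.Icc 1 ⌊K * y⌋₊).filter (fun p : ℕ => p.Prime ∧ p ≡ 1 [MOD 4]) with hT
  set T0 := (Finset.Icc 1 ⌊y⌋₊).filter (fun p : ℕ => p.Prime ∧ p ≡ 1 [MOD 4]) with hT0
  have hsub : T0 ⊆ T := by
    apply Finset.filter_subset_filter
    exact Finset.Icc_subset_Icc_right (Nat.floor_le_floor hKy)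
  have h1 := hC (K * y) (by linarith)
  have h2 := hC y hy1
  rw [← hT] at h1
  rw [← hT0] at h2
  have hlogKy : Real.log (K * y) = 4 * C + 2 + Real.log y := by
    rw [Real.log_mul (by positivity) (by positivity), hK, Real.log_exp]
  have hsum : 1 ≤ ∑ p ∈ T \ T0, Real.log p / p := by
    have h3 : ∑ p ∈ T \ T0, Real.log (p : ℝ) / p + ∑ p ∈ T0, Real.log (p : ℝ) / p =
        ∑ p ∈ T, Real.log (p : ℝ) / p := Finset.sum_sdiff hsub
    rw [abs_le] at h1 h2
    rw [hlogKy] at h1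
    linarith [h1.1, h2.2]
  have hterm : ∀ p ∈ T \ T0, Real.log (p : ℝ) / p ≤ Real.log (K * y) / y := by
    intro p hp
    rw [Finset.mem_sdiff] at hp
    have hpT := hp.1
    rw [hT, Finset.mem_filter, Finset.mem_Icc] at hpT
    have hp0 : (1 : ℝ) ≤ p := by exact_mod_cast hpT.1.1
    have hp1 : (p : ℝ) ≤ K * y := (Nat.le_floor_iff (by positivity)).1 hpT.1.2
    have hp2 : y < p := by
      by_contra hcon
      apply hp.2
      rw [hT0, Finset.mem_filter, Finset.mem_Icc]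
      exact ⟨⟨hpT.1.1, Nat.le_floor (by linarith)⟩, hpT.2⟩
    have h4 : Real.log p ≤ Real.log (K * y) := Real.log_le_log (by linarith) hp1
    have h5 : 0 ≤ Real.log (p : ℝ) := Real.log_nonneg hp0
    calc Real.log (p : ℝ) / p ≤ Real.log (p : ℝ) / y := by
          apply div_le_div_of_nonneg_left h5 (by linarith) hp2.le
      _ ≤ Real.log (K * y) / y := by
          apply div_le_div_of_nonneg_right h4 (by linarith)
  have hcard : y ≤ ((T \ T0).card : ℝ) * Real.log (K * y) := by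
    have h6 : ∑ p ∈ T \ T0, Real.log (p : ℝ) / p ≤ (T \ T0).card • (Real.log (K * y) / y) :=
      Finset.sum_le_card_nsmul _ _ _ hterm
    rw [nsmul_eq_mul] at h6
    have h7 : 1 ≤ ((T \ T0).card : ℝ) * (Real.log (K * y) / y) := le_trans hsum h6
    have hypos : 0 < y := by linarith
    rw [← mul_div_assoc, le_div_iff₀ hypos, one_mul] at h7
    exact h7
  have hlogr : Real.log (r : ℝ) ≤ r := (Real.log_le_sub_one_of_pos (by linarith)).trans (by linarith)
  have hpow2 : (2 * (n0 : ℝ) + 6) ≤ (r : ℝ) ^ (n0 + 4) := by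
    have h8 : n0 < 2 ^ n0 := Nat.lt_two_pow_self
    have h9 : 2 * n0 + 6 ≤ 2 ^ (n0 + 4) := by
      rw [pow_add]
      omega
    have h10 : 2 ^ (n0 + 4) ≤ r ^ (n0 + 4) := Nat.pow_le_pow_left hr _
    have h11 : 2 * n0 + 6 ≤ r ^ (n0 + 4) := h9.trans h10
    exact_mod_cast h11
  have hlog : (r : ℝ) * Real.log (K * y) ≤ y := by
    have h12 : Real.log y = (n0 + 6 : ℕ) * Real.log r := by rw [hy, Real.log_pow]
    have h13 : Real.log (K * y) ≤ (2 * (n0 : ℝ) + 6) * r := by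
      rw [hlogKy, h12]
      push_cast
      have h14 : ((n0 : ℝ) + 6) * Real.log r ≤ ((n0 : ℝ) + 6) * r :=
        mul_le_mul_of_nonneg_left hlogr (by positivity)
      have h15 : (n0 : ℝ) ≤ (n0 : ℝ) * r := by
        have : (0 : ℝ) ≤ n0 := by positivity
        nlinarith
      nlinarith
    have h16 : y = (r : ℝ) * ((r : ℝ) ^ (n0 + 4) * r) := by rw [hy]; ring
    have h13' : Real.log (K * y) ≤ (r : ℝ) ^ (n0 + 4) * r :=
      h13.trans (mul_le_mul_of_nonneg_right hpow2 (by linarith))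
    calc (r : ℝ) * Real.log (K * y) ≤ (r : ℝ) * ((r : ℝ) ^ (n0 + 4) * r) :=
          mul_le_mul_of_nonneg_left h13' (by linarith)
      _ = y := h16.symm
  have hcr : r ≤ (T \ T0).card := by
    by_contra hcon
    have h17 : ((T \ T0).card : ℝ) < r := by exact_mod_cast (not_le.1 hcon)
    have h18 : 0 < Real.log (K * y) := by
      rw [hlogKy]
      have := Real.log_nonneg hy1
      linarith
    have h19 : ((T \ T0).card : ℝ) * Real.log (K * y) < r * Real.log (K * y) :=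
      mul_lt_mul_of_pos_right h17 h18
    linarith
  obtain ⟨s, hs1, hs2⟩ := Finset.exists_subset_card_eq hcr
  refine ⟨s, hs2, ?_⟩
  intro p hp
  have hp' := hs1 hp
  rw [Finset.mem_sdiff, hT, Finset.mem_filter, Finset.mem_Icc] at hp'
  refine ⟨hp'.1.2.1, hp'.1.2.2, ?_⟩
  have hp1 : (p : ℝ) ≤ K * y := (Nat.le_floor_iff (by positivity)).1 hp'.1.1.2
  have hK2 : K ≤ (r : ℝ) ^ (2 * n0) := by
    have h20 : K ≤ Real.exp (n0 : ℝ) := Real.exp_le_exp.2 ha
    have h21 : Real.exp (n0 : ℝ) = Real.exp 1 ^ n0 := by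
      rw [← Real.exp_nat_mul, mul_one]
    have h22 : Real.exp 1 ≤ (r : ℝ) ^ 2 := by
      have h23 := Real.exp_one_lt_d9
      nlinarith
    calc K ≤ Real.exp 1 ^ n0 := by rw [← h21]; exact h20
      _ ≤ ((r : ℝ) ^ 2) ^ n0 := pow_le_pow_left₀ (Real.exp_pos _).le h22 _
      _ = (r : ℝ) ^ (2 * n0) := by rw [← pow_mul]
  have hfin : (p : ℝ) ≤ (r : ℝ) ^ (2 * n0 + (n0 + 6)) := by
    rw [pow_add, ← hy]
    exact hp1.trans (mul_le_mul_of_nonneg_right hK2 (by linarith))
  exact_mod_cast hfin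

/-- A number `w` with many prime factors of `w ^ 2 + 1`. -/
theorem exists_w : ∃ C : ℕ, ∀ r : ℕ, 2 ≤ r →
    ∃ w : ℕ, 0 < w ∧ w ≤ r ^ (C * r) ∧ r ≤ (w ^ 2 + 1).primeFactors.card := by
  classical
  obtain ⟨C, hC⟩ := exists_primes
  refine ⟨C, fun r hr => ?_⟩
  obtain ⟨s, hs1, hs2⟩ := hC r hr
  have h1 : IsSquare (-1 : ZMod (∏ p ∈ s, p)) := by
    have hs3 : ∀ p ∈ s, p.Prime ∧ p ≡ 1 [MOD 4] := fun p hp => ⟨(hs2 p hp).1, (hs2 p hp).2.1⟩
    clear hs1 hs2
    induction s using Finset.induction_on with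
    | empty => rw [Finset.prod_empty]; exact ⟨0, Subsingleton.elim _ _⟩
    | insert a s ha ih =>
      rw [Finset.prod_insert ha]
      apply ZMod.isSquare_neg_one_mul
      · apply Nat.Coprime.prod_right
        intro p hp
        rw [Nat.coprime_primes (hs3 a (Finset.mem_insert_self _ _)).1
          (hs3 p (Finset.mem_insert_of_mem hp)).1]
        rintro rfl
        exact ha hp
      · have h2 := hs3 a (Finset.mem_insert_self _ _)
        have : Fact a.Prime := ⟨h2.1⟩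
        rw [ZMod.exists_sq_eq_neg_one_iff]
        have h3 : a % 4 = 1 % 4 := h2.2
        omega
      · exact ih fun p hp => hs3 p (Finset.mem_insert_of_mem hp)
  have hne : NeZero (∏ p ∈ s, p) := ⟨Finset.prod_ne_zero_iff.2 fun p hp => (hs2 p hp).1.ne_zero⟩
  obtain ⟨x, hx⟩ := h1
  have hdvd : (∏ p ∈ s, p) ∣ x.val ^ 2 + 1 := by
    rw [← ZMod.natCast_eq_zero_iff]
    push_cast
    rw [ZMod.natCast_val, ZMod.cast_id]
    rw [sq, ← hx]
    ring
  have hdvdp : ∀ p ∈ s, p ∣ x.val ^ 2 + 1 := fun p hp => (Finset.dvd_prod_of_mem _ hp).trans hdvd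
  refine ⟨x.val, ?_, ?_, ?_⟩
  · rcases Nat.eq_zero_or_pos x.val with h0 | h0
    · exfalso
      have hPne : s.Nonempty := by
        rw [← Finset.card_pos, hs1]
        omega
      obtain ⟨p, hp⟩ := hPne
      have h2 := hdvdp p hp
      rw [h0] at h2
      norm_num at h2
      exact (hs2 p hp).1.one_lt.ne' h2
    · exact h0
  · have h2 : x.val < ∏ p ∈ s, p := ZMod.val_lt x
    have h3 : ∏ p ∈ s, p ≤ (r ^ C) ^ s.card := by
      apply Finset.prod_le_pow_card
      intro p hp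
      exact (hs2 p hp).2.2
    rw [hs1, ← pow_mul] at h3
    omega
  · rw [← hs1]
    apply Finset.card_le_card
    intro p hp
    exact Nat.mem_primeFactors.2 ⟨(hs2 p hp).1, hdvdp p hp, by positivity⟩

theorem two_pow_le_card_divisors {n r : ℕ} (hn : n ≠ 0) (h : r ≤ n.primeFactors.card) :
    2 ^ r ≤ n.divisors.card := by
  rw [Nat.card_divisors hn]
  calc 2 ^ r ≤ 2 ^ n.primeFactors.card := Nat.pow_le_pow_right (by norm_num) h
    _ = ∏ _x ∈ n.primeFactors, 2 := by rw [Finset.prod_const]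
    _ ≤ ∏ x ∈ n.primeFactors, (n.factorization x + 1) := by
        apply Finset.prod_le_prod'
        intro p hp
        have h1 : 0 < n.factorization p :=
          (Nat.prime_of_mem_primeFactors hp).factorization_pos_of_dvd hn
            (Nat.dvd_of_mem_primeFactors hp)
        omega

/-- The divisors `d` of `n` with `d ≤ n / d`. -/
def Small (n : ℕ) : Finset ℕ := n.divisors.filter (fun d => d ≤ n / d)

theorem card_small {n : ℕ} (hn : n ≠ 0) : n.divisors.card ≤ 2 * (Small n).card := by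
  classical
  have h1 : n.divisors ⊆ Small n ∪ (Small n).image (fun d => n / d) := by
    intro d hd
    rw [Finset.mem_union]
    by_cases h : d ≤ n / d
    · left
      exact Finset.mem_filter.2 ⟨hd, h⟩
    · right
      rw [Finset.mem_image]
      have hdn := Nat.dvd_of_mem_divisors hd
      refine ⟨n / d, ?_, Nat.div_div_self hdn hn⟩
      refine Finset.mem_filter.2 ⟨Nat.mem_divisors.2 ⟨Nat.div_dvd_of_dvd hdn, hn⟩, ?_⟩
      rw [Nat.div_div_self hdn hn]
      omega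
  calc n.divisors.card ≤ (Small n ∪ (Small n).image (fun d => n / d)).card :=
        Finset.card_le_card h1
    _ ≤ (Small n).card + ((Small n).image (fun d => n / d)).card := Finset.card_union_le _ _
    _ ≤ (Small n).card + (Small n).card := Nat.add_le_add_left Finset.card_image_le _
    _ = 2 * (Small n).card := by ring

/-- The solution `x = -(w + d)`, `y = -(w + e)`, `z = -(w (w + d) (w + e) + 1)` attached to a
divisor `d` of `w ^ 2 + 1 = d e`. -/
def sol (w d : ℕ) : ℤ × ℤ × ℤ :=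
  (-((w : ℤ) + d), -((w : ℤ) + ((w ^ 2 + 1) / d : ℕ)),
    -((w : ℤ) * (w + d) * (w + ((w ^ 2 + 1) / d : ℕ)) + 1))

theorem sol_spec {w d : ℕ} (hw : 0 < w) (hd : d ∈ Small (w ^ 2 + 1)) :
    IsSolution w (sol w d).1 (sol w d).2.1 (sol w d).2.2 ∧
    NoOpposite w (sol w d).1 (sol w d).2.1 (sol w d).2.2 ∧
    |(w : ℤ)| < |(sol w d).1| ∧ |(sol w d).1| ≤ |(sol w d).2.1| ∧
    |(sol w d).2.1| ≤ |(sol w d).2.2| := by
  obtain ⟨hd1, hd2⟩ := Finset.mem_filter.1 hd
  have hdn := Nat.dvd_of_mem_divisors hd1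
  have hd0 : 0 < d := Nat.pos_of_mem_divisors hd1
  simp only [sol]
  set e := (w ^ 2 + 1) / d with he
  have hde : d * e = w ^ 2 + 1 := Nat.mul_div_cancel' hdn
  have hdeZ : (d : ℤ) * e = (w : ℤ) ^ 2 + 1 := by exact_mod_cast hde
  have hwZ : (0 : ℤ) < w := by exact_mod_cast hw
  have hdZ : (0 : ℤ) < d := by exact_mod_cast hd0
  have hdeZ' : (d : ℤ) ≤ e := by exact_mod_cast hd2
  clear_value e
  generalize (w : ℤ) = W at *
  generalize (d : ℤ) = D at *
  generalize (e : ℤ) = E at *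
  have hE : 0 < E := by omega
  have h1 : 0 < W + D := by omega
  have h2 : 0 < W + E := by omega
  have h3 : W + E ≤ W * (W + D) * (W + E) := by
    have h4 : 1 ≤ W * (W + D) := by nlinarith
    nlinarith
  refine ⟨?_, ?_, ?_, ?_, ?_⟩
  · apply isSolution_of
    · omega
    · omega
    · omega
    · omega
    · linear_combination (-(W * (W + D) * (W + E) + 1)) * hdeZ
  · refine ⟨?_, ?_, ?_, ?_, ?_, ?_⟩ <;> omega
  · rw [abs_neg, abs_of_pos hwZ, abs_of_pos (by omega)]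
    omega
  · rw [abs_neg, abs_neg, abs_of_pos (by omega), abs_of_pos (by omega)]
    omega
  · rw [abs_neg, abs_neg, abs_of_pos (by omega), abs_of_pos (by omega)]
    omega

theorem sol_inj (w : ℕ) : Function.Injective (sol w) := by
  intro d d' h
  have h1 := congrArg (fun t : ℤ × ℤ × ℤ => t.1) h
  simp only [sol] at h1
  omega

/-- There is a constant `C` such that for every `r ≥ 2` there is a positive integer
`w ≤ r^(C r)` for which Mordell's equation has at least `2^(r-1)` solutions `(w, x, y, z)` with no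
two entries opposite and `w < |x| ≤ |y| ≤ |z|`. -/
theorem result : ∃ C : ℕ, ∀ r : ℕ, 2 ≤ r → ∃ w : ℕ, 0 < w ∧ w ≤ r ^ (C * r) ∧
    ∃ F : Finset (ℤ × ℤ × ℤ), 2 ^ (r - 1) ≤ F.card ∧ ∀ t ∈ F,
      IsSolution w t.1 t.2.1 t.2.2 ∧ NoOpposite w t.1 t.2.1 t.2.2 ∧
      |(w : ℤ)| < |t.1| ∧ |t.1| ≤ |t.2.1| ∧ |t.2.1| ≤ |t.2.2| := by
  classical
  obtain ⟨C, hC⟩ := exists_w
  refine ⟨C, fun r hr => ?_⟩
  obtain ⟨w, hw0, hw1, hw2⟩ := hC r hr
  refine ⟨w, hw0, hw1, (Small (w ^ 2 + 1)).image (sol w), ?_, ?_⟩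
  · rw [Finset.card_image_of_injective _ (sol_inj w)]
    have h1 := two_pow_le_card_divisors (n := w ^ 2 + 1) (by positivity) hw2
    have h2 := card_small (n := w ^ 2 + 1) (by positivity)
    have h3 : 2 ^ r = 2 * 2 ^ (r - 1) := by
      rw [← pow_succ']
      congr 1
      omega
    omega
  · intro t ht
    obtain ⟨d, hd, rfl⟩ := Finset.mem_image.1 ht
    exact sol_spec hw0 hd

end Pool.Agent.Results.MP_d45172_nt.ManyCompletions
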