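import Mathlib
import Pool.Agent.H7.Mordell
import Pool.Agent.H7.Core
import Pool.Agent.H7.Local

namespace Pool.Agent.Results.MP_d45172_nt.ResidueClasses

open Pool.Agent.H7.Mordell Pool.Agent.H7.Local

theorem cop {m : ℕ} (hm : 0 < m) {D : ℤ} (hodd : D % 2 = 1)
    (h : ∀ p : ℕ, p.Prime → p ∣ m → ¬ (p : ℤ) ^ (m.factorization p + 1) ∣ D) :
    ∃ (A : ℕ) (D' : ℤ), D = A * D' ∧ A ∣ m ∧ Odd A ∧ IsCoprime D' (4 * (m : ℤ) ^ 2) := by
  have hm0 : (m : ℤ) ≠ 0 := by exact_mod_cast hm.ne'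
  have hD0 : D ≠ 0 := by rintro rfl; norm_num at hodd
  set A : ℕ := Int.gcd D m with hA
  have hApos : 0 < A := Int.gcd_pos_of_ne_zero_left _ hD0
  have hA0 : (A : ℤ) ≠ 0 := by exact_mod_cast hApos.ne'
  obtain ⟨D', hD'⟩ : (A : ℤ) ∣ D := Int.gcd_dvd_left ..
  obtain ⟨m', hm'⟩ : A ∣ m := by
    have : (A : ℤ) ∣ (m : ℤ) := Int.gcd_dvd_right ..
    exact_mod_cast this
  have hcop : IsCoprime D' (m' : ℤ) := by
    obtain ⟨u, v, huv⟩ : ∃ u v : ℤ, u * D + v * m = A :=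
      ⟨Int.gcdA D m, Int.gcdB D m, by rw [hA, Int.gcd_eq_gcd_ab]; ring⟩
    refine ⟨u, v, ?_⟩
    apply mul_left_cancel₀ hA0
    rw [hD', hm'] at huv
    push_cast at huv
    linear_combination huv
  have hAodd : Odd A := by
    rw [← Nat.not_even_iff_odd]
    intro hev
    have : (2 : ℤ) ∣ D := by
      rw [hD']
      exact Dvd.dvd.mul_right (by exact_mod_cast hev.two_dvd) _
    omega
  refine ⟨A, D', hD', ⟨m', hm'⟩, hAodd, ?_⟩
  rw [Int.isCoprime_iff_gcd_eq_one]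
  by_contra hne
  obtain ⟨p, hp, hpd⟩ := Nat.exists_prime_and_dvd hne
  have hpD' : (p : ℤ) ∣ D' := dvd_trans (by exact_mod_cast hpd) (Int.gcd_dvd_left ..)
  have hpR : (p : ℤ) ∣ 4 * (m : ℤ) ^ 2 := dvd_trans (by exact_mod_cast hpd) (Int.gcd_dvd_right ..)
  have hpp := prime_int hp
  have hp2 : ¬ (p : ℤ) ∣ 2 := by
    intro h'
    have : p ∣ 2 := by exact_mod_cast h'
    have : p = 2 := (Nat.prime_dvd_prime_iff_eq hp Nat.prime_two).1 this
    subst this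
    have : (2 : ℤ) ∣ D := by rw [hD']; exact Dvd.dvd.mul_left hpD' _
    omega
  have hpm : p ∣ m := by
    rcases hpp.dvd_or_dvd hpR with h' | h'
    · exfalso
      have e : (4 : ℤ) = 2 * 2 := by norm_num
      rw [e] at h'
      rcases hpp.dvd_or_dvd h' with h'' | h'' <;> exact hp2 h''
    · exact_mod_cast hpp.dvd_of_dvd_pow h'
  have hpm' : ¬ p ∣ m' := by
    intro h'
    obtain ⟨s, t, hst⟩ := hcop
    have : (p : ℤ) ∣ 1 := by
      rw [← hst]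
      exact dvd_add (Dvd.dvd.mul_left hpD' _) (Dvd.dvd.mul_left (by exact_mod_cast h') _)
    exact hpp.not_dvd_one this
  apply h p hp hpm
  have hfac : p ^ (m.factorization p) ∣ A := by
    have h1 : p ^ (m.factorization p) ∣ A * m' := by rw [← hm']; exact Nat.ordProj_dvd m p
    exact Nat.Coprime.dvd_of_dvd_mul_right
      (Nat.Coprime.pow_left _ ((Nat.Prime.coprime_iff_not_dvd hp).2 hpm')) h1
  rw [hD', pow_succ]
  exact mul_dvd_mul (by exact_mod_cast hfac) hpD'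

theorem jacobi_A {A : ℕ} {w x y z : ℤ} (hAD : (A : ℤ) ∣ w * x + w * y + x * y)
    (hAE : (A : ℤ) ∣ E w x y z) : jacobiSym (w + y) A = 1 := by
  have h1 : (A : ℤ) ∣ 1 + w * x * y := by
    rw [E_eq] at hAE
    have := dvd_sub hAE (Dvd.dvd.mul_left hAD z)
    simpa using this
  obtain ⟨a, ha⟩ := hAD
  obtain ⟨b, hb⟩ := h1
  have hcop : IsCoprime (w * y) (A : ℤ) := ⟨-x, b, by linear_combination -hb⟩
  have hmod : (A : ℤ) ∣ (w + y) - (w * y) ^ 2 := by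
    refine ⟨b * (w + y) - w * y * a, ?_⟩
    linear_combination (w + y) * hb - w * y * ha
  rw [show jacobiSym (w + y) A = jacobiSym ((w * y) ^ 2) A from
    jacobiSym.mod_left' (Int.ModEq.symm (Int.modEq_iff_dvd.2 hmod))]
  exact jacobiSym.sq_one' (Int.isCoprime_iff_gcd_eq_one.1 hcop)

theorem jacobi_B {B : ℕ} {w x y z : ℤ} (hBW : (B : ℤ) ∣ w + y)
    (hBE : (B : ℤ) ∣ E w x y z) : jacobiSym (-(w * x + w * y + x * y)) B = 1 := by
  obtain ⟨a, ha⟩ := hBW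
  obtain ⟨b, hb⟩ := hBE
  have hcop : IsCoprime y (B : ℤ) := by
    unfold E at hb
    have hw : w = B * a - y := by linarith
    rw [hw] at hb
    refine ⟨y * (x + z), b - a * (y * z + x * z + x * y), ?_⟩
    linear_combination -hb
  have hmod : (B : ℤ) ∣ (-(w * x + w * y + x * y)) - y ^ 2 := by
    refine ⟨-a * (x + y), ?_⟩
    linear_combination -(x + y) * ha
  rw [show jacobiSym (-(w * x + w * y + x * y)) B = jacobiSym (y ^ 2) B from
    jacobiSym.mod_left' (Int.ModEq.symm (Int.modEq_iff_dvd.2 hmod))]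
  exact jacobiSym.sq_one' (Int.isCoprime_iff_gcd_eq_one.1 hcop)

/-- Exact solutions from an approximate one modulo `4m²`. -/
theorem from_approx {m : ℕ} (hm : 0 < m) (w x y z : ℤ) (hE : 4 * (m : ℤ) ^ 2 ∣ E w x y z)
    (hD2 : (w * x + w * y + x * y) % 2 = 1) (hW2 : (w + y) % 2 = 1)
    (h : ∀ p : ℕ, p.Prime → p ∣ m →
        ¬ (p : ℤ) ^ (m.factorization p + 1) ∣ w * x + w * y + x * y ∧
        ¬ (p : ℤ) ^ (m.factorization p + 1) ∣ w + y) (n : ℕ) :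
    ∃ w' x' y' z' : ℤ, E w' x' y' z' = 0 ∧ (n : ℤ) < w' * x' + w' * y' + x' * y' ∧
      (m : ℤ) ∣ w' - w ∧ (m : ℤ) ∣ x' - x ∧ (m : ℤ) ∣ y' - y ∧ (m : ℤ) ∣ z' - z := by
  obtain ⟨A, D', hD', hAm, hAodd, hcD⟩ := cop hm hD2 (fun p hp hpm => (h p hp hpm).1)
  obtain ⟨B, W', hW', hBm, hBodd, hcW⟩ := cop hm hW2 (fun p hp hpm => (h p hp hpm).2)
  have hm0 : (m : ℤ) ≠ 0 := by exact_mod_cast hm.ne'
  have hmR : (m : ℤ) ∣ 4 * (m : ℤ) ^ 2 := ⟨4 * m, by ring⟩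
  have hAmZ : (A : ℤ) ∣ (m : ℤ) := by exact_mod_cast hAm
  have hBmZ : (B : ℤ) ∣ (m : ℤ) := by exact_mod_cast hBm
  have hAE : (A : ℤ) ∣ E w x y z := dvd_trans (dvd_trans hAmZ hmR) hE
  have hBE : (B : ℤ) ∣ E w x y z := dvd_trans (dvd_trans hBmZ hmR) hE
  obtain ⟨l, w', x', y', z', hl, hnl, hDeq, hE', c1, c2, c3, c4⟩ :=
    Pool.Agent.H7.Core.core (4 * (m : ℤ) ^ 2) (Dvd.intro _ rfl)
      (mul_ne_zero (by norm_num) (pow_ne_zero _ hm0)) A B hAodd hBodd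
      (dvd_trans hAmZ hmR) (dvd_trans hBmZ hmR) w x y z D' W' hD' hW' hcD hcW
      (by have := hE; unfold E at this; exact this)
      (jacobi_A (by rw [hD']; exact Dvd.intro _ rfl) hAE)
      (jacobi_B (by rw [hW']; exact Dvd.intro _ rfl) hBE) n
  refine ⟨w', x', y', z', hE', ?_, dvd_trans hmR c1, dvd_trans hmR c2, dvd_trans hmR c3, ?_⟩
  · rw [hDeq]
    have hA1 : 1 ≤ A := hAodd.pos
    have : n < A * l := lt_of_lt_of_le hnl (Nat.le_mul_of_pos_left l hA1)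
    exact_mod_cast this
  · obtain ⟨a, ha⟩ := hAmZ
    obtain ⟨b, hb⟩ := c4
    have hA0 : (A : ℤ) ≠ 0 := by
      intro h0; rw [h0, zero_mul] at ha; exact hm0 ha
    refine ⟨4 * a * b, ?_⟩
    apply mul_left_cancel₀ hA0
    rw [hb]
    linear_combination 4 * (m : ℤ) * b * ha

/-- The case where the first unknown is even (if `m` is even). -/
theorem first_even (m : ℕ) (hm : 0 < m) (w0 x0 y0 z0 : ℤ) (hE : (m : ℤ) ∣ E w0 x0 y0 z0)
    (h3 : ¬ (3 ∣ m ∧ (3 : ℤ) ∣ w0 + 1 ∧ (3 : ℤ) ∣ x0 + 1 ∧ (3 : ℤ) ∣ y0 + 1 ∧ (3 : ℤ) ∣ z0 + 1))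
    (h2 : 2 ∣ m → (2 : ℤ) ∣ w0) (n : ℕ) :
    ∃ w x y z : ℤ, E w x y z = 0 ∧ (n : ℤ) < w * x + w * y + x * y ∧
      (m : ℤ) ∣ w - w0 ∧ (m : ℤ) ∣ x - x0 ∧ (m : ℤ) ∣ y - y0 ∧ (m : ℤ) ∣ z - z0 := by
  obtain ⟨w1, x1, y1, z1, a1, a2, a3, a4, a5, a6⟩ := P_all m hm w0 x0 y0 z0 hE h3 h2
  by_cases hev : 2 ∣ m
  · -- `m` even
    have hevZ : (2 : ℤ) ∣ (m : ℤ) := by exact_mod_cast hev
    have h4 : 4 * (m : ℤ) ^ 2 ∣ (m : ℤ) ^ 4 := by
      obtain ⟨k, hk⟩ := hevZ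
      exact ⟨k ^ 2, by rw [hk]; ring⟩
    have hE1 : 4 * (m : ℤ) ^ 2 ∣ E w1 x1 y1 z1 := dvd_trans h4 a5
    have hw1 : (2 : ℤ) ∣ w1 := by
      have := dvd_add (dvd_trans hevZ a1) (h2 hev)
      simpa using this
    have hE2 : (2 : ℤ) ∣ E w1 x1 y1 z1 := dvd_trans ⟨2 * (m : ℤ) ^ 2, by ring⟩ hE1
    have hodd : ¬ (2 : ℤ) ∣ x1 * y1 * z1 := by
      intro h'
      obtain ⟨a, ha⟩ := hw1
      obtain ⟨b, hb⟩ := h'
      obtain ⟨c, hc⟩ := hE2
      unfold E at hc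
      have : (2 : ℤ) ∣ 1 :=
        ⟨c - b - a * (y1 * z1 + x1 * z1 + x1 * y1), by
          rw [ha] at hc; linear_combination hc - hb⟩
      norm_num at this
    have hx1 : x1 % 2 = 1 := by
      by_contra h'
      exact hodd (Dvd.dvd.mul_right (Dvd.dvd.mul_right (by omega : (2 : ℤ) ∣ x1) _) _)
    have hy1 : y1 % 2 = 1 := by
      by_contra h'
      exact hodd (Dvd.dvd.mul_right (Dvd.dvd.mul_left (by omega : (2 : ℤ) ∣ y1) _) _)
    have hD2 : (w1 * x1 + w1 * y1 + x1 * y1) % 2 = 1 := by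
      obtain ⟨a, ha⟩ := hw1
      obtain ⟨b, hb⟩ : ∃ b, x1 = 2 * b + 1 := ⟨x1 / 2, by omega⟩
      obtain ⟨c, hc⟩ : ∃ c, y1 = 2 * c + 1 := ⟨y1 / 2, by omega⟩
      have : w1 * x1 + w1 * y1 + x1 * y1 = 2 * (a * x1 + a * y1 + 2 * b * c + b + c) + 1 := by
        rw [ha, hb, hc]; ring
      omega
    obtain ⟨w, x, y, z, b1, b2, b3, b4, b5, b6⟩ :=
      from_approx hm w1 x1 y1 z1 hE1 hD2 (by omega) a6 n
    refine ⟨w, x, y, z, b1, b2, ?_, ?_, ?_, ?_⟩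
    · simpa using dvd_add b3 a1
    · simpa using dvd_add b4 a2
    · simpa using dvd_add b5 a3
    · simpa using dvd_add b6 a4
  · -- `m` odd
    have hcop : IsCoprime ((m : ℤ) ^ 4) (4 : ℤ) := by
      have h1 : IsCoprime (m : ℤ) (2 : ℤ) := by
        have : Nat.Coprime m 2 := (Nat.coprime_comm.1 ((Nat.Prime.coprime_iff_not_dvd
          Nat.prime_two).2 hev))
        exact_mod_cast Nat.isCoprime_iff_coprime.2 this
      have h2 : IsCoprime ((m : ℤ) ^ 4) ((2 : ℤ) ^ 2) := IsCoprime.pow h1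
      norm_num at h2
      exact h2
    obtain ⟨w2, hw2, hw4⟩ := Pool.Agent.H7.Local.crt hcop w1 0
    obtain ⟨x2, hx2, hx4⟩ := Pool.Agent.H7.Local.crt hcop x1 1
    obtain ⟨y2, hy2, hy4⟩ := Pool.Agent.H7.Local.crt hcop y1 1
    obtain ⟨z2, hz2, hz4⟩ := Pool.Agent.H7.Local.crt hcop z1 (-1)
    have hmm : (m : ℤ) ∣ (m : ℤ) ^ 4 := dvd_pow_self _ (by norm_num)
    have hE4 : (4 : ℤ) ∣ E w2 x2 y2 z2 := by
      have := E_congr hw4 hx4 hy4 hz4
      have e : E 0 1 1 (-1) = 0 := by unfold E; norm_num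
      rwa [e, sub_zero] at this
    have hEm : (m : ℤ) ^ 4 ∣ E w2 x2 y2 z2 := by
      have := dvd_add (E_congr hw2 hx2 hy2 hz2) a5
      simpa using this
    have hE1 : 4 * (m : ℤ) ^ 2 ∣ E w2 x2 y2 z2 := by
      have h1 : 4 * (m : ℤ) ^ 2 ∣ 4 * (m : ℤ) ^ 4 := ⟨(m : ℤ) ^ 2, by ring⟩
      exact dvd_trans h1 (hcop.symm.mul_dvd hE4 hEm)
    have hD2 : (w2 * x2 + w2 * y2 + x2 * y2) % 2 = 1 := by
      obtain ⟨a, ha⟩ := hw4
      obtain ⟨b, hb⟩ := hx4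
      obtain ⟨c, hc⟩ := hy4
      have e1 : w2 = 4 * a := by linarith
      have e2 : x2 = 4 * b + 1 := by linarith
      have e3 : y2 = 4 * c + 1 := by linarith
      have : w2 * x2 + w2 * y2 + x2 * y2 =
        2 * (2 * a * x2 + 2 * a * y2 + 8 * b * c + 2 * b + 2 * c) + 1 := by
        rw [e1, e2, e3]; ring
      omega
    obtain ⟨w, x, y, z, b1, b2, b3, b4, b5, b6⟩ :=
      from_approx hm w2 x2 y2 z2 hE1 hD2 (by omega)
        (fun p hp hpm => transfer hm.ne' (dvd_refl _) hw2 hx2 hy2 hp hpm (a6 p hp hpm)) n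
    refine ⟨w, x, y, z, b1, b2, ?_, ?_, ?_, ?_⟩
    · simpa using dvd_add (dvd_add b3 (dvd_trans hmm hw2)) a1
    · simpa using dvd_add (dvd_add b4 (dvd_trans hmm hx2)) a2
    · simpa using dvd_add (dvd_add b5 (dvd_trans hmm hy2)) a3
    · simpa using dvd_add (dvd_add b6 (dvd_trans hmm hz2)) a4

/-- `E = 0` and a large face determinant give a nontrivial solution. -/
theorem nontrivial_of_large {w x y z : ℤ} (hE : E w x y z = 0)
    (hD : 4 < w * x + w * y + x * y) : IsSolution w x y z ∧ NoOpposite w x y z := by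
  have key : ∀ a b : ℤ, a * b = 1 ∨ a * b = -1 → (a = 1 ∨ a = -1) ∧ (b = 1 ∨ b = -1) := by
    intro a b h
    have ha : IsUnit a := by
      rcases h with h | h
      · exact IsUnit.of_mul_eq_one b h
      · exact IsUnit.of_mul_eq_one (-b) (by linarith)
    have hb : IsUnit b := by
      rcases h with h | h
      · exact IsUnit.of_mul_eq_one a (by linarith)
      · exact IsUnit.of_mul_eq_one (-a) (by linarith)
    exact ⟨Int.isUnit_iff.1 ha, Int.isUnit_iff.1 hb⟩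
  have hE' : x * y * z + w * y * z + w * x * z + w * x * y + 1 = 0 := by unfold E at hE; exact hE
  have sq1 : ∀ a b : ℤ, a * a * b = 1 → a = 1 ∨ a = -1 := by
    intro a b h
    exact (key a (a * b) (Or.inl (by linarith))).1
  rw [isSolution_iff]
  refine ⟨⟨?_, ?_, ?_, ?_, hE'⟩, ?_, ?_, ?_, ?_, ?_, ?_⟩
  · rintro rfl
    have h1 : x * y * z = -1 := by linarith
    rcases (key (x * y) z (Or.inr h1)).1 with h | h <;> rw [zero_mul, zero_mul] at hD <;> linarith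
  · rintro rfl
    have h1 : (w * y) * z = -1 := by linarith
    rcases (key (w * y) z (Or.inr h1)).1 with h | h <;> simp only [mul_zero, zero_mul] at hD <;>
      linarith
  · rintro rfl
    have h1 : (w * x) * z = -1 := by linarith
    rcases (key (w * x) z (Or.inr h1)).1 with h | h <;> simp only [mul_zero] at hD <;> linarith
  · rintro rfl
    have h1 : w * (x * y) = -1 := by linarith
    obtain ⟨hw, hxy⟩ := key w (x * y) (Or.inr h1)
    obtain ⟨hx, hy⟩ := key x y hxy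
    rcases hw with rfl | rfl <;> rcases hx with rfl | rfl <;> rcases hy with rfl | rfl <;>
      norm_num at hD
  · intro h0
    have hx : x = -w := by linarith
    subst hx
    have h1 := sq1 w (y + z) (by linarith)
    rcases h1 with rfl | rfl <;> linarith
  · intro h0
    have hx : y = -w := by linarith
    subst hx
    have h1 := sq1 w (x + z) (by linarith)
    rcases h1 with rfl | rfl <;> linarith
  · intro h0
    have hx : z = -w := by linarith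
    subst hx
    have h1 := sq1 w (x + y) (by linarith)
    rcases h1 with rfl | rfl
    · have : y = 1 - x := by linarith
      subst this
      nlinarith [mul_self_nonneg (2 * x - 1)]
    · have : y = 1 - x := by linarith
      subst this
      nlinarith [mul_self_nonneg (2 * x - 1)]
  · intro h0
    have hx : y = -x := by linarith
    subst hx
    have h1 := sq1 x (w + z) (by linarith)
    rcases h1 with rfl | rfl <;> linarith
  · intro h0
    have hx : z = -x := by linarith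
    subst hx
    have h1 := sq1 x (w + y) (by linarith)
    rcases h1 with rfl | rfl
    · have : y = 1 - w := by linarith
      subst this
      nlinarith [mul_self_nonneg (2 * w - 1)]
    · have : y = 1 - w := by linarith
      subst this
      nlinarith [mul_self_nonneg (2 * w - 1)]
  · intro h0
    have hx : z = -y := by linarith
    subst hx
    have h1 := sq1 y (w + x) (by linarith)
    rcases h1 with rfl | rfl
    · have : x = 1 - w := by linarith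
      subst this
      nlinarith [mul_self_nonneg (2 * w - 1)]
    · have : x = 1 - w := by linarith
      subst this
      nlinarith [mul_self_nonneg (2 * w - 1)]


/-- Solutions without opposite pair, of large size, in a class whose first entry is even when the
modulus is even. -/
theorem aux (m : ℕ) (hm : 0 < m) (w0 x0 y0 z0 : ℤ) (hE : (m : ℤ) ∣ E w0 x0 y0 z0)
    (h3 : ¬ (3 ∣ m ∧ (3 : ℤ) ∣ w0 + 1 ∧ (3 : ℤ) ∣ x0 + 1 ∧ (3 : ℤ) ∣ y0 + 1 ∧ (3 : ℤ) ∣ z0 + 1))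
    (h2 : 2 ∣ m → (2 : ℤ) ∣ w0) (n : ℕ) :
    ∃ w x y z : ℤ, IsSolution w x y z ∧ NoOpposite w x y z ∧
      (n : ℤ) < |w| + |x| + |y| + |z| ∧
      (m : ℤ) ∣ w - w0 ∧ (m : ℤ) ∣ x - x0 ∧ (m : ℤ) ∣ y - y0 ∧ (m : ℤ) ∣ z - z0 := by
  obtain ⟨w, x, y, z, b1, b2, b3, b4, b5, b6⟩ :=
    first_even m hm w0 x0 y0 z0 hE h3 h2 (n ^ 2 + 4)
  push_cast at b2
  have hns := nontrivial_of_large b1 (by nlinarith [sq_nonneg (n : ℤ)])
  refine ⟨w, x, y, z, hns.1, hns.2, ?_, b3, b4, b5, b6⟩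
  have e1 : w * x ≤ |w| * |x| := by rw [← abs_mul]; exact le_abs_self _
  have e2 : w * y ≤ |w| * |y| := by rw [← abs_mul]; exact le_abs_self _
  have e3 : x * y ≤ |x| * |y| := by rw [← abs_mul]; exact le_abs_self _
  have p1 := abs_nonneg w
  have p2 := abs_nonneg x
  have p3 := abs_nonneg y
  have p4 := abs_nonneg z
  by_contra hlt
  push Not at hlt
  have h5 : |w| + |x| + |y| ≤ (n : ℤ) := by linarith
  have h6 : (|w| + |x| + |y|) ^ 2 ≤ (n : ℤ) ^ 2 := by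
    apply pow_le_pow_left₀ (by linarith) h5
  nlinarith [mul_nonneg p1 p2, mul_nonneg p1 p3, mul_nonneg p2 p3]

/-- Solutions without opposite pair, of large size, in any admissible class. -/
theorem large (m : ℕ) (hm : 0 < m) (w0 x0 y0 z0 : ℤ) (hE : (m : ℤ) ∣ E w0 x0 y0 z0)
    (h3 : ¬ (3 ∣ m ∧ (3 : ℤ) ∣ w0 + 1 ∧ (3 : ℤ) ∣ x0 + 1 ∧ (3 : ℤ) ∣ y0 + 1 ∧ (3 : ℤ) ∣ z0 + 1))
    (n : ℕ) :
    ∃ w x y z : ℤ, IsSolution w x y z ∧ NoOpposite w x y z ∧
      (n : ℤ) < |w| + |x| + |y| + |z| ∧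
      (m : ℤ) ∣ w - w0 ∧ (m : ℤ) ∣ x - x0 ∧ (m : ℤ) ∣ y - y0 ∧ (m : ℤ) ∣ z - z0 := by
  have swapx : ∀ w x y z : ℤ, E w x y z = E x w y z := by intro w x y z; unfold E; ring
  have swapy : ∀ w x y z : ℤ, E w x y z = E y x w z := by intro w x y z; unfold E; ring
  have swapz : ∀ w x y z : ℤ, E w x y z = E z x y w := by intro w x y z; unfold E; ring
  by_cases hev : 2 ∣ m
  · have hE2 : (2 : ℤ) ∣ E w0 x0 y0 z0 := dvd_trans (by exact_mod_cast hev) hE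
    have hor : (2 : ℤ) ∣ w0 ∨ (2 : ℤ) ∣ x0 ∨ (2 : ℤ) ∣ y0 ∨ (2 : ℤ) ∣ z0 := by
      by_contra hno
      push Not at hno
      obtain ⟨k1, k2, k3, k4⟩ := hno
      obtain ⟨a, ha⟩ : ∃ a, w0 = 2 * a + 1 := ⟨w0 / 2, by omega⟩
      obtain ⟨b, hb⟩ : ∃ b, x0 = 2 * b + 1 := ⟨x0 / 2, by omega⟩
      obtain ⟨c, hc⟩ : ∃ c, y0 = 2 * c + 1 := ⟨y0 / 2, by omega⟩
      obtain ⟨d, hd⟩ : ∃ d, z0 = 2 * d + 1 := ⟨z0 / 2, by omega⟩
      obtain ⟨k, hk⟩ := hE2
      unfold E at hk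
      have : (2 : ℤ) ∣ 1 := ⟨k - (2 + 3 * (a + b + c + d) +
        4 * (a * b + a * c + a * d + b * c + b * d + c * d) +
        4 * (a * b * c + a * b * d + a * c * d + b * c * d)), by
          rw [ha, hb, hc, hd] at hk; linear_combination hk⟩
      norm_num at this
    rcases hor with h | h | h | h
    · exact aux m hm w0 x0 y0 z0 hE h3 (fun _ => h) n
    · obtain ⟨x, w, y, z, c1, c2, c3, c4, c5, c6, c7⟩ :=
        aux m hm x0 w0 y0 z0 (by rw [← swapx]; exact hE)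
          (fun ⟨t0, t1, t2, t3, t4⟩ => h3 ⟨t0, t2, t1, t3, t4⟩) (fun _ => h) n
      rw [isSolution_iff] at c1
      refine ⟨w, x, y, z, ?_, ?_, by linarith, c5, c4, c6, c7⟩
      · rw [isSolution_iff]
        exact ⟨c1.2.1, c1.1, c1.2.2.1, c1.2.2.2.1, by linarith [c1.2.2.2.2]⟩
      · unfold NoOpposite at c2 ⊢
        obtain ⟨d1, d2, d3, d4, d5, d6⟩ := c2
        refine ⟨?_, d4, d5, d2, d3, d6⟩
        rwa [add_comm]
    · obtain ⟨y, x, w, z, c1, c2, c3, c4, c5, c6, c7⟩ :=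
        aux m hm y0 x0 w0 z0 (by rw [← swapy]; exact hE)
          (fun ⟨t0, t1, t2, t3, t4⟩ => h3 ⟨t0, t3, t2, t1, t4⟩) (fun _ => h) n
      rw [isSolution_iff] at c1
      refine ⟨w, x, y, z, ?_, ?_, by linarith, c6, c5, c4, c7⟩
      · rw [isSolution_iff]
        exact ⟨c1.2.2.1, c1.2.1, c1.1, c1.2.2.2.1, by linarith [c1.2.2.2.2]⟩
      · unfold NoOpposite at c2 ⊢
        obtain ⟨d1, d2, d3, d4, d5, d6⟩ := c2
        refine ⟨?_, ?_, ?_, ?_, ?_, ?_⟩ <;> intro h0 <;> first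
          | exact d1 (by linarith) | exact d2 (by linarith) | exact d3 (by linarith)
          | exact d4 (by linarith) | exact d5 (by linarith) | exact d6 (by linarith)
    · obtain ⟨z, x, y, w, c1, c2, c3, c4, c5, c6, c7⟩ :=
        aux m hm z0 x0 y0 w0 (by rw [← swapz]; exact hE)
          (fun ⟨t0, t1, t2, t3, t4⟩ => h3 ⟨t0, t4, t2, t3, t1⟩) (fun _ => h) n
      rw [isSolution_iff] at c1
      refine ⟨w, x, y, z, ?_, ?_, by linarith, c7, c5, c6, c4⟩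
      · rw [isSolution_iff]
        exact ⟨c1.2.2.2.1, c1.2.1, c1.2.2.1, c1.1, by linarith [c1.2.2.2.2]⟩
      · unfold NoOpposite at c2 ⊢
        obtain ⟨d1, d2, d3, d4, d5, d6⟩ := c2
        refine ⟨?_, ?_, ?_, ?_, ?_, ?_⟩ <;> intro h0 <;> first
          | exact d1 (by linarith) | exact d2 (by linarith) | exact d3 (by linarith)
          | exact d4 (by linarith) | exact d5 (by linarith) | exact d6 (by linarith)
  · exact aux m hm w0 x0 y0 z0 hE h3 (fun h => absurd h hev) n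

/-- The class `(w, x, y, z)` modulo `m` is admissible: it satisfies the congruence
`xyz + wyz + wxz + wxy + 1 ≡ 0 (mod m)`, and it is not the case that `3 ∣ m` and all four of
`w, x, y, z` are `≡ -1 (mod 3)`. -/
def Admissible (m : ℕ) (w x y z : ℤ) : Prop :=
  x * y * z + w * y * z + w * x * z + w * x * y + 1 ≡ 0 [ZMOD m] ∧
    ¬ (3 ∣ m ∧ w ≡ -1 [ZMOD 3] ∧ x ≡ -1 [ZMOD 3] ∧ y ≡ -1 [ZMOD 3] ∧ z ≡ -1 [ZMOD 3])

/-- The solutions of `1/w + 1/x + 1/y + 1/z + 1/(wxyz) = 0` with no two opposite entries, in the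
residue class of `(w₀, x₀, y₀, z₀)` modulo `m`. -/
def solutionsInClass (m : ℕ) (w₀ x₀ y₀ z₀ : ℤ) : Set (ℤ × ℤ × ℤ × ℤ) :=
  {q | IsSolution q.1 q.2.1 q.2.2.1 q.2.2.2 ∧ NoOpposite q.1 q.2.1 q.2.2.1 q.2.2.2 ∧
    q.1 ≡ w₀ [ZMOD m] ∧ q.2.1 ≡ x₀ [ZMOD m] ∧ q.2.2.1 ≡ y₀ [ZMOD m] ∧ q.2.2.2 ≡ z₀ [ZMOD m]}

theorem three_dvd_iff (w : ℤ) : w ≡ -1 [ZMOD 3] ↔ (3 : ℤ) ∣ w + 1 := by
  rw [Int.modEq_iff_dvd]
  constructor <;> intro h <;> omega

theorem eval_congr {p : ℕ} {v v' : Fin 3 → ℤ} (h : ∀ i, (p : ℤ) ∣ v' i - v i)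
    (G : MvPolynomial (Fin 3) ℤ) :
    (p : ℤ) ∣ MvPolynomial.eval v' G - MvPolynomial.eval v G := by
  have hv : (Int.castRingHom (ZMod p)) ∘ v' = (Int.castRingHom (ZMod p)) ∘ v := by
    funext i
    have := (ZMod.intCast_zmod_eq_zero_iff_dvd (v' i - v i) p).2 (h i)
    simp only [Function.comp_apply, eq_intCast]
    rw [Int.cast_sub] at this
    exact sub_eq_zero.1 this
  have key : ∀ u : Fin 3 → ℤ, ((MvPolynomial.eval u G : ℤ) : ZMod p) =
      MvPolynomial.eval₂ (Int.castRingHom (ZMod p)) ((Int.castRingHom (ZMod p)) ∘ u) G := by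
    intro u
    rw [← MvPolynomial.eval₂_comp]
    rfl
  rw [← ZMod.intCast_zmod_eq_zero_iff_dvd, Int.cast_sub, key, key, hv, sub_self]

/-- In an admissible class the solutions without opposite pair do not all satisfy a nontrivial
polynomial relation in `w, x, y`. -/
theorem dense (m : ℕ) (hm : 0 < m) (w0 x0 y0 z0 : ℤ) (hE : (m : ℤ) ∣ E w0 x0 y0 z0)
    (h3 : ¬ (3 ∣ m ∧ (3 : ℤ) ∣ w0 + 1 ∧ (3 : ℤ) ∣ x0 + 1 ∧ (3 : ℤ) ∣ y0 + 1 ∧ (3 : ℤ) ∣ z0 + 1))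
    (G : MvPolynomial (Fin 3) ℤ) (hG : G ≠ 0) :
    ∃ w x y z : ℤ, IsSolution w x y z ∧ NoOpposite w x y z ∧
      (m : ℤ) ∣ w - w0 ∧ (m : ℤ) ∣ x - x0 ∧ (m : ℤ) ∣ y - y0 ∧ (m : ℤ) ∣ z - z0 ∧
      MvPolynomial.eval ![w, x, y] G ≠ 0 := by
  set D : MvPolynomial (Fin 3) ℤ := MvPolynomial.X 0 * MvPolynomial.X 1 +
    MvPolynomial.X 0 * MvPolynomial.X 2 + MvPolynomial.X 1 * MvPolynomial.X 2 with hD
  have hDne : D ≠ 0 := by
    intro h0
    have : MvPolynomial.eval (fun _ : Fin 3 => (1 : ℤ)) D = 3 := by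
      rw [hD]; simp
    rw [h0] at this
    simp at this
  have hGD : G * D ≠ 0 := mul_ne_zero hG hDne
  obtain ⟨v, hv⟩ : ∃ v : Fin 3 → ℤ, MvPolynomial.eval v (G * D) ≠ 0 := by
    by_contra hno
    push Not at hno
    exact hGD (MvPolynomial.funext (fun x => by rw [hno x]; simp))
  rw [map_mul] at hv
  have hvG := left_ne_zero_of_mul hv
  have hvD := right_ne_zero_of_mul hv
  obtain ⟨p, hpge, hp⟩ := Nat.exists_infinite_primes
    ((MvPolynomial.eval v G).natAbs + (MvPolynomial.eval v D).natAbs + m + 4)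
  have hpG : ¬ (p : ℤ) ∣ MvPolynomial.eval v G := by
    intro h
    have h1 := Nat.le_of_dvd (Int.natAbs_pos.2 hvG) (Int.natCast_dvd.1 h)
    omega
  have hpD : ¬ (p : ℤ) ∣ MvPolynomial.eval v D := by
    intro h
    have h1 := Nat.le_of_dvd (Int.natAbs_pos.2 hvD) (Int.natCast_dvd.1 h)
    omega
  have hpm : ¬ p ∣ m := by
    intro h
    have h1 := Nat.le_of_dvd hm h
    omega
  have hDval : MvPolynomial.eval v D = v 0 * v 1 + v 0 * v 2 + v 1 * v 2 := by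
    rw [hD]; simp
  have hcopD : IsCoprime (p : ℤ) (MvPolynomial.eval v D) :=
    (Prime.coprime_iff_not_dvd (prime_int hp)).2 hpD
  obtain ⟨s, t, hst⟩ := hcopD
  rw [hDval] at hst
  have hcop : IsCoprime (m : ℤ) (p : ℤ) :=
    ((Prime.coprime_iff_not_dvd (prime_int hp)).2 (by exact_mod_cast hpm)).symm
  obtain ⟨w1, hw1, hw1'⟩ := Pool.Agent.H7.Local.crt hcop w0 (v 0)
  obtain ⟨x1, hx1, hx1'⟩ := Pool.Agent.H7.Local.crt hcop x0 (v 1)
  obtain ⟨y1, hy1, hy1'⟩ := Pool.Agent.H7.Local.crt hcop y0 (v 2)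
  obtain ⟨z1, hz1, hz1'⟩ := Pool.Agent.H7.Local.crt hcop z0 (-(1 + v 0 * v 1 * v 2) * t)
  have hEm : (m : ℤ) ∣ E w1 x1 y1 z1 := by
    have := dvd_add (E_congr hw1 hx1 hy1 hz1) hE
    simpa using this
  have hEp0 : (p : ℤ) ∣ E (v 0) (v 1) (v 2) (-(1 + v 0 * v 1 * v 2) * t) := by
    refine ⟨(1 + v 0 * v 1 * v 2) * s, ?_⟩
    unfold E
    linear_combination -(1 + v 0 * v 1 * v 2) * hst
  have hEp : (p : ℤ) ∣ E w1 x1 y1 z1 := by
    have := dvd_add (E_congr hw1' hx1' hy1' hz1') hEp0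
    simpa using this
  have hEmp : ((m * p : ℕ) : ℤ) ∣ E w1 x1 y1 z1 := by
    push_cast
    exact hcop.mul_dvd hEm hEp
  have h3p : 3 ∣ m * p → 3 ∣ m := by
    intro h
    rcases (Nat.Prime.dvd_mul Nat.prime_three).1 h with h | h
    · exact h
    · have := (Nat.prime_dvd_prime_iff_eq Nat.prime_three hp).1 h
      omega
  have hshift : ∀ a b : ℤ, (3 : ℤ) ∣ (m : ℤ) → (m : ℤ) ∣ a - b → (3 : ℤ) ∣ a + 1 →
      (3 : ℤ) ∣ b + 1 := by
    intro a b h1 h2 h4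
    have := dvd_sub h4 (dvd_trans h1 h2)
    have e : a + 1 - (a - b) = b + 1 := by ring
    rwa [e] at this
  have h3' : ¬ (3 ∣ m * p ∧ (3 : ℤ) ∣ w1 + 1 ∧ (3 : ℤ) ∣ x1 + 1 ∧ (3 : ℤ) ∣ y1 + 1 ∧
      (3 : ℤ) ∣ z1 + 1) := by
    rintro ⟨t0, t1, t2, t3, t4⟩
    have t0' : 3 ∣ m := h3p t0
    have t0'' : (3 : ℤ) ∣ (m : ℤ) := by exact_mod_cast t0'
    exact h3 ⟨t0', hshift _ _ t0'' hw1 t1, hshift _ _ t0'' hx1 t2, hshift _ _ t0'' hy1 t3,
      hshift _ _ t0'' hz1 t4⟩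
  obtain ⟨w, x, y, z, c1, c2, -, c4, c5, c6, c7⟩ :=
    large (m * p) (Nat.mul_pos hm hp.pos) w1 x1 y1 z1 hEmp h3' 0
  have dm : (m : ℤ) ∣ ((m * p : ℕ) : ℤ) := by push_cast; exact Dvd.intro _ rfl
  have dp : (p : ℤ) ∣ ((m * p : ℕ) : ℤ) := by push_cast; exact Dvd.intro_left _ rfl
  refine ⟨w, x, y, z, c1, c2, ?_, ?_, ?_, ?_, ?_⟩
  · simpa using dvd_add (dvd_trans dm c4) hw1
  · simpa using dvd_add (dvd_trans dm c5) hx1
  · simpa using dvd_add (dvd_trans dm c6) hy1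
  · simpa using dvd_add (dvd_trans dm c7) hz1
  · intro h0
    have q0 : (p : ℤ) ∣ w - v 0 := by simpa using dvd_add (dvd_trans dp c4) hw1'
    have q1 : (p : ℤ) ∣ x - v 1 := by simpa using dvd_add (dvd_trans dp c5) hx1'
    have q2 : (p : ℤ) ∣ y - v 2 := by simpa using dvd_add (dvd_trans dp c6) hy1'
    have hq : ∀ i : Fin 3, (p : ℤ) ∣ (![w, x, y] : Fin 3 → ℤ) i - v i := by
      intro i
      fin_cases i
      · simpa using q0
      · simpa using q1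
      · simpa using q2
    have := eval_congr hq G
    rw [h0, zero_sub] at this
    exact hpG ((dvd_neg).1 this)

theorem result (m : ℕ) (hm : 0 < m) (w₀ x₀ y₀ z₀ : ℤ) :
    (Admissible m w₀ x₀ y₀ z₀ →
      (solutionsInClass m w₀ x₀ y₀ z₀).Infinite ∧
      ∀ G : MvPolynomial (Fin 3) ℤ, G ≠ 0 → ∃ q ∈ solutionsInClass m w₀ x₀ y₀ z₀,
        MvPolynomial.eval ![q.1, q.2.1, q.2.2.1] G ≠ 0) ∧
    (¬ Admissible m w₀ x₀ y₀ z₀ → ∀ w x y z : ℤ, IsSolution w x y z →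
      ¬ (w ≡ w₀ [ZMOD m] ∧ x ≡ x₀ [ZMOD m] ∧ y ≡ y₀ [ZMOD m] ∧ z ≡ z₀ [ZMOD m])) := by
  constructor
  · rintro ⟨hE, h3⟩
    have hE' : (m : ℤ) ∣ E w₀ x₀ y₀ z₀ := by
      unfold E
      exact (Int.modEq_zero_iff_dvd).1 hE
    have h3' : ¬ (3 ∣ m ∧ (3 : ℤ) ∣ w₀ + 1 ∧ (3 : ℤ) ∣ x₀ + 1 ∧ (3 : ℤ) ∣ y₀ + 1 ∧
        (3 : ℤ) ∣ z₀ + 1) := by
      simpa only [three_dvd_iff] using h3
    constructor
    · intro hfin
      -- a finite set has bounded size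
      obtain ⟨N, hN⟩ : ∃ N : ℕ, ∀ q ∈ solutionsInClass m w₀ x₀ y₀ z₀,
          |q.1| + |q.2.1| + |q.2.2.1| + |q.2.2.2| ≤ (N : ℤ) := by
        have hb := (hfin.image (fun q : ℤ × ℤ × ℤ × ℤ =>
          |q.1| + |q.2.1| + |q.2.2.1| + |q.2.2.2|)).bddAbove
        obtain ⟨M, hM⟩ := hb
        refine ⟨M.toNat, fun q hq => ?_⟩
        have := hM (Set.mem_image_of_mem _ hq)
        exact le_trans this (Int.self_le_toNat M)
      obtain ⟨w, x, y, z, c1, c2, c3, c4, c5, c6, c7⟩ := large m hm w₀ x₀ y₀ z₀ hE' h3' N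
      have hmem : ((w, x, y, z) : ℤ × ℤ × ℤ × ℤ) ∈ solutionsInClass m w₀ x₀ y₀ z₀ :=
        ⟨c1, c2, (Int.modEq_iff_dvd.2 c4).symm, (Int.modEq_iff_dvd.2 c5).symm,
          (Int.modEq_iff_dvd.2 c6).symm, (Int.modEq_iff_dvd.2 c7).symm⟩
      have := hN _ hmem
      simp only at this
      linarith
    · intro G hG
      obtain ⟨w, x, y, z, c1, c2, c4, c5, c6, c7, c8⟩ :=
        dense m hm w₀ x₀ y₀ z₀ hE' h3' G hG
      exact ⟨(w, x, y, z), ⟨c1, c2, (Int.modEq_iff_dvd.2 c4).symm, (Int.modEq_iff_dvd.2 c5).symm,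
          (Int.modEq_iff_dvd.2 c6).symm, (Int.modEq_iff_dvd.2 c7).symm⟩, c8⟩
  · intro hna w x y z hsol hcl
    obtain ⟨h1, h2, h3, h4⟩ := hcl
    apply hna
    have hs := (isSolution_iff w x y z).1 hsol
    obtain ⟨-, -, -, -, hs⟩ := hs
    refine ⟨?_, ?_⟩
    · have : x₀ * y₀ * z₀ + w₀ * y₀ * z₀ + w₀ * x₀ * z₀ + w₀ * x₀ * y₀ + 1 ≡
          x * y * z + w * y * z + w * x * z + w * x * y + 1 [ZMOD m] := by
        gcongr
      rw [hs] at this
      exact this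
    · rintro ⟨t0, t1, t2, t3, t4⟩
      have t0' : (3 : ℤ) ∣ (m : ℤ) := by exact_mod_cast t0
      have u1 := (three_dvd_iff w).1 ((h1.of_dvd t0').trans t1)
      have u2 := (three_dvd_iff x).1 ((h2.of_dvd t0').trans t2)
      have u3 := (three_dvd_iff y).1 ((h3.of_dvd t0').trans t3)
      have u4 := (three_dvd_iff z).1 ((h4.of_dvd t0').trans t4)
      obtain ⟨a, ha⟩ := u1
      obtain ⟨b, hb⟩ := u2
      obtain ⟨c, hc⟩ := u3
      obtain ⟨d, hd⟩ := u4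
      have ha' : w = 3 * a - 1 := by linarith
      have hb' : x = 3 * b - 1 := by linarith
      have hc' : y = 3 * c - 1 := by linarith
      have hd' : z = 3 * d - 1 := by linarith
      rw [ha', hb', hc', hd'] at hs
      have : (3 : ℤ) ∣ 1 := ⟨(a + b + c + d) -
        2 * (a * b + a * c + a * d + b * c + b * d + c * d) +
        3 * (a * b * c + a * b * d + a * c * d + b * c * d), by
          linarith [hs]⟩
      norm_num at this

end Pool.Agent.Results.MP_d45172_nt.ResidueClasses
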